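import Mathlib

set_option autoImplicit false

/-!
# The group-theoretic core for MP_362855_co
-/

namespace Pool.Agent.Q141.Vol

open Finset

lemma card_inf_ge {G : Type*} [AddCommGroup G] [Finite G] (H K : AddSubgroup G) :
    Nat.card H * Nat.card K ≤ Nat.card G * Nat.card (H ⊓ K : AddSubgroup G) := by
  have h1 := H.card_mul_index
  have h2 := K.card_mul_index
  have h3 := (H ⊓ K).card_mul_index
  have h4 : (H ⊓ K).index ≤ H.index * K.index := AddSubgroup.index_inf_le
  have h5 : 0 < H.index := Nat.pos_of_ne_zero H.index_ne_zero_of_finite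
  have h6 : 0 < K.index := Nat.pos_of_ne_zero K.index_ne_zero_of_finite
  have h7 : 0 < H.index * K.index := Nat.mul_pos h5 h6
  refine Nat.le_of_mul_le_mul_right ?_ h7
  calc Nat.card H * Nat.card K * (H.index * K.index)
      = (Nat.card H * H.index) * (Nat.card K * K.index) := by ring
    _ = Nat.card G * Nat.card G := by rw [h1, h2]
    _ = Nat.card G * (Nat.card (H ⊓ K : AddSubgroup G) * (H ⊓ K).index) := by rw [h3]
    _ ≤ Nat.card G * (Nat.card (H ⊓ K : AddSubgroup G) * (H.index * K.index)) :=
        Nat.mul_le_mul_left _ (Nat.mul_le_mul_left _ h4)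
    _ = _ := by ring

open Classical in
theorem core {G : Type*} [AddCommGroup G] [Fintype G] {ι : Type*} (I : Finset ι)
    (H : ι → AddSubgroup G) (hH : ∀ i ∈ I, H i ≠ ⊤) (ht : G → ℕ) (k b : ℕ) (hk : 1 ≤ k)
    (hb : 2 ≤ b) (h0 : ht 0 = 0) (h1 : ∀ x, x ≠ 0 → ht x = k ∨ ht x = 2 * k)
    (hwt : ∀ x, (I.filter (fun i => x ∉ H i)).card = ht x + ht (-x))
    (hcard : (univ.filter (fun x => ht x = 2 * k)).card = b) :
    Fintype.card G ≤ (4 * b + 4) * k := by
  set m := Fintype.card G with hm
  have hmpos : 0 < m := Fintype.card_pos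
  -- sum of heights
  have hsum : (∑ x, (ht x : ℤ)) = k * (m - 1) + k * b := by
    have e : ∀ x, (ht x : ℤ) = (k - if x = 0 then (k : ℤ) else 0) + (if ht x = 2 * k then (k : ℤ) else 0) := by
      intro x
      by_cases hx : x = 0
      · subst hx
        rw [if_pos rfl, h0, if_neg (by omega)]
        simp
      · rw [if_neg hx]
        rcases h1 x hx with h | h
        · rw [h, if_neg (by omega)]; ring
        · rw [h, if_pos rfl]; push_cast; ring
    rw [Finset.sum_congr rfl fun x _ => e x, Finset.sum_add_distrib, Finset.sum_sub_distrib,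
      Finset.sum_ite_eq' univ (0 : G), ← Finset.sum_filter, Finset.sum_const, Finset.sum_const,
      hcard, Finset.card_univ]
    simp only [mem_univ, if_true, nsmul_eq_mul]
    rw [← hm]; ring
  have hneg : (∑ x, (ht (-x) : ℤ)) = ∑ x, (ht x : ℤ) :=
    Equiv.sum_comp (Equiv.neg G) (fun x => (ht x : ℤ))
  let h : ι → ℕ := fun i => (univ.filter (fun x => x ∈ H i)).card
  have hcardH : ∀ K : AddSubgroup G, (univ.filter (fun x => x ∈ K)).card = Nat.card K := by
    intro K
    rw [Nat.card_eq_fintype_card, Fintype.card_subtype]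
  -- double counting over a finset `X`
  have hdouble : ∀ X : Finset G, (∑ x ∈ X, ((ht x : ℤ) + ht (-x))) =
      ∑ i ∈ I, ((X.card : ℤ) - (X.filter (fun x => x ∈ H i)).card) := by
    intro X
    have e1 : ∀ x, ((ht x : ℤ) + ht (-x)) = ∑ i ∈ I, (if x ∈ H i then (0 : ℤ) else 1) := by
      intro x
      have := hwt x
      rw [Finset.card_filter] at this
      have h2 : ((∑ i ∈ I, if x ∉ H i then 1 else 0 : ℕ) : ℤ) = ((ht x + ht (-x) : ℕ) : ℤ) := by
        rw [this]
      push_cast at h2
      rw [← h2]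
      apply Finset.sum_congr rfl
      intro i _
      by_cases hx : x ∈ H i <;> simp [hx]
    rw [Finset.sum_congr rfl fun x _ => e1 x, Finset.sum_comm]
    apply Finset.sum_congr rfl
    intro i _
    have e2 : ∀ x, (if x ∈ H i then (0 : ℤ) else 1) = 1 - (if x ∈ H i then (1 : ℤ) else 0) := by
      intro x; split_ifs <;> simp
    rw [Finset.sum_congr rfl fun x _ => e2 x, Finset.sum_sub_distrib, Finset.card_filter]
    push_cast
    simp
  have htotal : ∑ i ∈ I, ((m : ℤ) - h i) = 2 * (k * (m - 1) + k * b) := by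
    have := hdouble univ
    rw [Finset.sum_add_distrib, hneg, hsum, Finset.card_univ] at this
    rw [← this]; ring
  have htotal' : ∑ i ∈ I, (h i : ℤ) = I.card * m - 2 * (k * (m - 1) + k * b) := by
    rw [Finset.sum_sub_distrib] at htotal
    simp only [Finset.sum_const, nsmul_eq_mul] at htotal
    linarith
  -- the inequality for one subgroup
  have hone : ∀ i ∈ I, (h i : ℤ) * (m - h i) ≤ 2 * k * m + 2 * k * (b - 1) * h i := by
    intro i hi
    have h2 := hdouble (univ.filter (fun x => x ∈ H i))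
    have h3 : 2 * (k : ℤ) * (h i - 1) ≤
        ∑ x ∈ univ.filter (fun x => x ∈ H i), ((ht x : ℤ) + ht (-x)) := by
      have e : ∀ x ∈ univ.filter (fun x => x ∈ H i),
          (2 * (k : ℤ) - if x = 0 then 2 * (k : ℤ) else 0) ≤ (ht x : ℤ) + ht (-x) := by
        intro x _
        by_cases hx : x = 0
        · rw [if_pos hx]
          simp only [sub_self]
          positivity
        · rw [if_neg hx]
          have h4 : k ≤ ht x := by rcases h1 x hx with h | h <;> omega
          have h5 : k ≤ ht (-x) := by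
            rcases h1 (-x) (neg_ne_zero.2 hx) with h | h <;> omega
          have h4' : (k : ℤ) ≤ ht x := by exact_mod_cast h4
          have h5' : (k : ℤ) ≤ ht (-x) := by exact_mod_cast h5
          linarith
      refine le_trans (le_of_eq ?_) (Finset.sum_le_sum e)
      rw [Finset.sum_sub_distrib, Finset.sum_ite_eq']
      have : (0 : G) ∈ univ.filter (fun x => x ∈ H i) := by simp [(H i).zero_mem]
      rw [if_pos this]
      simp only [Finset.sum_const, nsmul_eq_mul]
      show _ = (h i : ℤ) * _ - _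
      ring
    rw [h2] at h3
    have h4 : ∀ j, ((univ.filter (fun x => x ∈ H i)).filter (fun x => x ∈ H j)).card =
        Nat.card (H i ⊓ H j : AddSubgroup G) := by
      intro j
      rw [← hcardH, Finset.filter_filter]
      simp only [AddSubgroup.mem_inf]
    simp_rw [h4] at h3
    rw [Finset.sum_sub_distrib] at h3
    simp only [Finset.sum_const, nsmul_eq_mul] at h3
    -- lower bound for the intersections
    have h5 : ∀ j, (h i : ℤ) * h j ≤ m * Nat.card (H i ⊓ H j : AddSubgroup G) := by
      intro j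
      have := card_inf_ge (H i) (H j)
      rw [← hcardH (H i), ← hcardH (H j), Nat.card_eq_fintype_card (α := G)] at this
      exact_mod_cast this
    have h6 : (m : ℤ) * h i + h i * (∑ j ∈ I, (h j : ℤ) - h i) ≤
        m * ∑ j ∈ I, (Nat.card (H i ⊓ H j : AddSubgroup G) : ℤ) := by
      rw [← Finset.add_sum_erase I _ hi, ← Finset.add_sum_erase I (fun j => (Nat.card (H i ⊓ H j : AddSubgroup G) : ℤ)) hi]
      have e1 : (Nat.card (H i ⊓ H i : AddSubgroup G) : ℤ) = h i := by
        rw [inf_idem, ← hcardH]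
      rw [e1, mul_add]
      have e2 : (h i : ℤ) * ((h i : ℤ) + ∑ j ∈ I.erase i, (h j : ℤ) - h i) = ∑ j ∈ I.erase i, (h i : ℤ) * h j := by
        rw [← Finset.mul_sum]; ring
      rw [e2, Finset.mul_sum]
      have := Finset.sum_le_sum (s := I.erase i) (fun j _ => h5 j)
      linarith
    rw [htotal'] at h6
    have h7 := mul_le_mul_of_nonneg_left h3 (Int.natCast_nonneg m)
    have e3 : ((univ.filter (fun x => x ∈ H i)).card : ℤ) = h i := rfl
    rw [e3] at h7
    nlinarith [h6, h7]
  -- indices
  have hidx : ∀ i, h i * (H i).index = m := by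
    intro i
    have := (H i).card_mul_index
    rw [← hcardH, Nat.card_eq_fintype_card (α := G)] at this
    exact this
  have hidx2 : ∀ i ∈ I, 2 ≤ (H i).index := by
    intro i hi
    have h2 : (H i).index ≠ 0 := (H i).index_ne_zero_of_finite
    have h3 : (H i).index ≠ 1 := fun h => hH i hi (AddSubgroup.index_eq_one.1 h)
    omega
  by_cases hex : ∃ i ∈ I, (H i).index ≤ b + 1
  · obtain ⟨i, hi, hn⟩ := hex
    have h2 := hone i hi
    have h3 := hidx i
    have h4 := hidx2 i hi
    set n := (H i).index with hndef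
    have hpos : 0 < h i := by
      rcases Nat.eq_zero_or_pos (h i) with h5 | h5
      · rw [h5] at h3; omega
      · exact h5
    have h3' : (m : ℤ) = h i * n := by exact_mod_cast h3.symm
    have hpos' : (0 : ℤ) < h i := by exact_mod_cast hpos
    rw [h3'] at h2
    have h6 : (h i : ℤ) * (n - 1) ≤ 2 * k * (n + b - 1) := by
      have : (h i : ℤ) * ((h i : ℤ) * (n - 1)) ≤ h i * (2 * k * (n + b - 1)) := by
        calc (h i : ℤ) * ((h i : ℤ) * (n - 1)) = h i * (h i * n - h i) := by ring
          _ ≤ 2 * k * (h i * n) + 2 * k * (b - 1) * h i := h2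
          _ = _ := by ring
      exact le_of_mul_le_mul_left this hpos'
    obtain ⟨n', hn'⟩ : ∃ n', n = n' + 2 := ⟨n - 2, by omega⟩
    obtain ⟨c, hc⟩ : ∃ c, b = n' + 1 + c := ⟨b - (n' + 1), by omega⟩
    have h7 : (m : ℤ) * (n - 1) ≤ ((4 * b + 4) * k : ℕ) * (n - 1) := by
      have hn0 : (0 : ℤ) ≤ n := Int.natCast_nonneg n
      have e1 : (m : ℤ) * (n - 1) = n * ((h i : ℤ) * (n - 1)) := by rw [h3']; ring
      rw [e1]
      refine (mul_le_mul_of_nonneg_left h6 hn0).trans ?_
      rw [hn', hc]
      push_cast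
      have e2 : (4 * ((n' : ℤ) + 1 + c) + 4) * k * (n' + 2 - 1) - (n' + 2) * (2 * k * (n' + 2 + (n' + 1 + c) - 1)) =
          2 * k * n' * c := by ring
      have h8 : (0 : ℤ) ≤ 2 * k * n' * c := by positivity
      linarith
    have h8 : (0 : ℤ) < (n : ℤ) - 1 := by
      have : (2 : ℤ) ≤ n := by exact_mod_cast h4
      linarith
    have h9 := le_of_mul_le_mul_right h7 h8
    exact_mod_cast h9
  · push Not at hex
    -- number of coordinates
    have hN : 3 * k ≤ I.card := by
      have hne : (univ.filter (fun x => ht x = 2 * k)).Nonempty := by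
        rw [← Finset.card_pos, hcard]; omega
      obtain ⟨x, hx⟩ := hne
      rw [mem_filter] at hx
      have hx0 : x ≠ 0 := by rintro rfl; rw [h0] at hx; omega
      have h2 := hwt x
      have h3 : (I.filter (fun i => x ∉ H i)).card ≤ I.card := Finset.card_filter_le _ _
      have h4 : k ≤ ht (-x) := by
        rcases h1 (-x) (neg_ne_zero.2 hx0) with h | h <;> omega
      omega
    have h2 : ∀ i ∈ I, ((b : ℤ) + 2) * h i ≤ m := by
      intro i hi
      have h3 := hidx i
      have h4 := hex i hi
      have h5 : (b + 2) * h i ≤ m := by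
        rw [← h3, Nat.mul_comm (h i)]
        exact Nat.mul_le_mul_right _ h4
      exact_mod_cast h5
    have h3 : ((b : ℤ) + 2) * ∑ i ∈ I, (h i : ℤ) ≤ I.card * m := by
      rw [Finset.mul_sum]
      refine (Finset.sum_le_sum h2).trans ?_
      simp
    rw [htotal'] at h3
    have hN' : 3 * (k : ℤ) ≤ I.card := by exact_mod_cast hN
    have hm' : (0 : ℤ) < m := by exact_mod_cast hmpos
    have hk' : (1 : ℤ) ≤ k := by exact_mod_cast hk
    have hb' : (2 : ℤ) ≤ b := by exact_mod_cast hb
    -- (b+1) N m ≤ 2 k (b+2) (m - 1 + b)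
    have h4 : ((b : ℤ) + 1) * (I.card * m) ≤ 2 * k * (b + 2) * (m - 1 + b) := by linarith
    have h5 : ((b : ℤ) + 1) * (3 * k * m) ≤ ((b : ℤ) + 1) * (I.card * m) :=
      mul_le_mul_of_nonneg_left (mul_le_mul_of_nonneg_right hN' hm'.le) (by linarith)
    have h6 : (k : ℤ) * (b - 1) * m ≤ k * (b - 1) * (2 * (b + 2)) := by linarith
    have h7 : (0 : ℤ) < k * (b - 1) := by
      apply mul_pos <;> linarith
    have h8 : (m : ℤ) ≤ 2 * (b + 2) := le_of_mul_le_mul_left h6 h7
    have h9 : (2 : ℤ) * (b + 2) ≤ (4 * b + 4) * k := by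
      have : (4 * (b : ℤ) + 4) * 1 ≤ (4 * b + 4) * k := mul_le_mul_of_nonneg_left hk' (by linarith)
      linarith
    have h10 : (m : ℤ) ≤ (4 * b + 4) * k := h8.trans h9
    exact_mod_cast h10

end Pool.Agent.Q141.Vol
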