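import Mathlib

set_option autoImplicit false

/-!
# Lattice points in dilated lattice simplices, and the finite group of a lattice simplex
-/

namespace Pool.Agent.Q141.Vol

open Finset

/-- The number of integer points in the `m`-th dilate of `P`. -/
noncomputable def ehr {d : ℕ} (P : Set (Fin d → ℝ)) (m : ℕ) : ℕ :=
  Set.ncard {x : Fin d → ℤ | (fun i => (x i : ℝ)) ∈ (fun y => (m : ℝ) • y) '' P}

/-! ### Fractional parts on the circle -/

/-- the representative in `[0, 1)` -/
noncomputable def fr (a : AddCircle (1 : ℝ)) : ℝ := (AddCircle.equivIco (1 : ℝ) 0 a : ℝ)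

lemma fr_mk (x : ℝ) : fr (x : AddCircle (1 : ℝ)) = Int.fract x := by
  unfold fr
  have := AddCircle.coe_equivIco_mk_apply (p := (1 : ℝ)) x
  rw [div_one, mul_one] at this
  exact this

lemma fr_nonneg (a : AddCircle (1 : ℝ)) : 0 ≤ fr a := (AddCircle.equivIco (1 : ℝ) 0 a).2.1

lemma fr_lt_one (a : AddCircle (1 : ℝ)) : fr a < 1 :=
  lt_of_lt_of_eq (AddCircle.equivIco (1 : ℝ) 0 a).2.2 (zero_add 1)

lemma fr_inj {a b : AddCircle (1 : ℝ)} (h : fr a = fr b) : a = b :=
  (AddCircle.equivIco (1 : ℝ) 0).injective (Subtype.ext h)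

lemma fr_zero : fr 0 = 0 := by
  have := fr_mk 0
  simpa using this

lemma fr_neg {a : AddCircle (1 : ℝ)} (h : a ≠ 0) : fr (-a) = 1 - fr a := by
  obtain ⟨x, rfl⟩ := QuotientAddGroup.mk_surjective a
  have h1 : Int.fract x ≠ 0 := by
    intro h2
    apply h
    apply fr_inj
    rw [fr_zero]
    exact (fr_mk x).trans h2
  have h2 : (-(x : AddCircle (1 : ℝ))) = ((-x : ℝ) : AddCircle (1 : ℝ)) := rfl
  show fr (-(x : AddCircle (1 : ℝ))) = 1 - fr (x : AddCircle (1 : ℝ))
  rw [h2, fr_mk, fr_mk, Int.fract_neg h1]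

lemma fr_of_int {x : ℝ} {n : ℤ} (h : x = n) : (x : AddCircle (1 : ℝ)) = 0 := by
  apply fr_inj
  rw [fr_mk, fr_zero, h, Int.fract_intCast]

/-! ### The group of a lattice simplex -/

variable {d : ℕ} (v : Fin (d + 1) → Fin d → ℤ)

/-- real vertices -/
def vR (i : Fin (d + 1)) : Fin d → ℝ := fun j => (v i j : ℝ)

/-- the coefficient vectors of the integer points of the cone lattice -/
def Lam : AddSubgroup (Fin (d + 1) → ℝ) where
  carrier := {l | (∃ z : Fin d → ℤ, ∀ j, ∑ i, l i * vR v i j = z j) ∧ ∃ n : ℤ, ∑ i, l i = n}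
  add_mem' := by
    rintro a b ⟨⟨z, hz⟩, n, hn⟩ ⟨⟨z', hz'⟩, n', hn'⟩
    refine ⟨⟨z + z', fun j => ?_⟩, n + n', ?_⟩
    · simp only [Pi.add_apply, add_mul, Finset.sum_add_distrib, hz, hz']
      push_cast; ring
    · simp only [Pi.add_apply, Finset.sum_add_distrib, hn, hn']
      push_cast; ring
  zero_mem' := ⟨⟨0, fun j => by simp⟩, 0, by simp⟩
  neg_mem' := by
    rintro a ⟨⟨z, hz⟩, n, hn⟩
    refine ⟨⟨-z, fun j => ?_⟩, -n, ?_⟩
    · simp only [Pi.neg_apply, neg_mul, Finset.sum_neg_distrib, hz]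
      push_cast; ring
    · simp only [Pi.neg_apply, Finset.sum_neg_distrib, hn]
      push_cast; ring

lemma mem_Lam (l : Fin (d + 1) → ℝ) : l ∈ Lam v ↔
    (∃ z : Fin d → ℤ, ∀ j, ∑ i, l i * vR v i j = z j) ∧ ∃ n : ℤ, ∑ i, l i = n := Iff.rfl

lemma int_mem_Lam (n : Fin (d + 1) → ℤ) : (fun i => (n i : ℝ)) ∈ Lam v := by
  rw [mem_Lam]
  refine ⟨⟨fun j => ∑ i, n i * v i j, fun j => ?_⟩, ∑ i, n i, by push_cast; rfl⟩
  push_cast
  rfl

/-- reduction modulo 1 -/
def red : (Fin (d + 1) → ℝ) →+ (Fin (d + 1) → AddCircle (1 : ℝ)) where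
  toFun l := fun i => (l i : AddCircle (1 : ℝ))
  map_zero' := by funext i; rfl
  map_add' a b := by funext i; rfl

/-- the finite group of the simplex -/
def GG : AddSubgroup (Fin (d + 1) → AddCircle (1 : ℝ)) := (Lam v).map red

/-- fractional vector -/
noncomputable def frv (τ : GG v) : Fin (d + 1) → ℝ := fun i => fr (τ.1 i)

lemma frv_mem (τ : GG v) : frv v τ ∈ Lam v := by
  obtain ⟨τ, l, hl, rfl⟩ := τ
  have e : frv v ⟨red l, l, hl, rfl⟩ = l - (fun i => ((⌊l i⌋ : ℤ) : ℝ)) := by
    funext i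
    show fr (l i : AddCircle (1 : ℝ)) = l i - (⌊l i⌋ : ℝ)
    rw [fr_mk]
    rfl
  rw [e]
  exact sub_mem hl (int_mem_Lam v _)

lemma frv_red (τ : GG v) : red (frv v τ) = τ.1 := by
  funext i
  apply fr_inj
  show fr ((frv v τ i : ℝ) : AddCircle (1 : ℝ)) = _
  rw [fr_mk]
  exact Int.fract_eq_self.2 ⟨fr_nonneg _, fr_lt_one _⟩

/-- the integer point of an element -/
noncomputable def zp (τ : GG v) : Fin d → ℤ := (frv_mem v τ).1.choose

lemma zp_spec (τ : GG v) (j : Fin d) : ∑ i, frv v τ i * vR v i j = zp v τ j :=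
  (frv_mem v τ).1.choose_spec j

/-- the height -/
noncomputable def ht (τ : GG v) : ℕ := (frv_mem v τ).2.choose.toNat

lemma ht_spec (τ : GG v) : (ht v τ : ℝ) = ∑ i, frv v τ i := by
  have h1 := (frv_mem v τ).2.choose_spec
  have h2 : 0 ≤ (frv_mem v τ).2.choose := by
    have : (0 : ℝ) ≤ ∑ i, frv v τ i := Finset.sum_nonneg fun i _ => fr_nonneg _
    rw [h1] at this
    exact_mod_cast this
  have h3 : ((ht v τ : ℤ) : ℝ) = ((frv_mem v τ).2.choose : ℝ) := by
    unfold ht
    rw [Int.toNat_of_nonneg h2]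
  rw [h1, ← h3]
  push_cast; rfl

variable (hv : AffineIndependent ℝ (vR v))

include hv in
lemma coeff_unique {l l' : Fin (d + 1) → ℝ} (h1 : ∀ j, ∑ i, l i * vR v i j = ∑ i, l' i * vR v i j)
    (h2 : ∑ i, l i = ∑ i, l' i) : l = l' := by
  rw [affineIndependent_iff] at hv
  have h3 := hv univ (fun i => l i - l' i) (by rw [Finset.sum_sub_distrib, h2, sub_self]) ?_
  · funext i
    have := h3 i (mem_univ i)
    linarith
  · funext j
    rw [Finset.sum_apply]
    simp only [Pi.smul_apply, smul_eq_mul, sub_mul, Finset.sum_sub_distrib]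
    rw [h1 j]; simp

include hv in
lemma finite_GG : Finite (GG v) := by
  classical
  let M : Fin d → ℤ := fun j => ∑ i, |v i j|
  have hb : ∀ τ : GG v, zp v τ ∈ Set.Icc (-M) M := by
    intro τ
    have habs : ∀ j, |((zp v τ j : ℤ) : ℝ)| ≤ ((M j : ℤ) : ℝ) := by
      intro j
      rw [← zp_spec]
      refine (Finset.abs_sum_le_sum_abs _ _).trans ?_
      simp only [M]
      push_cast
      apply Finset.sum_le_sum
      intro i _
      rw [abs_mul, abs_of_nonneg (show (0 : ℝ) ≤ frv v τ i from fr_nonneg _)]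
      calc frv v τ i * |vR v i j| ≤ 1 * |vR v i j| :=
            mul_le_mul_of_nonneg_right (fr_lt_one _).le (abs_nonneg _)
        _ = |(v i j : ℝ)| := by rw [one_mul]; rfl
    refine ⟨fun j => ?_, fun j => ?_⟩
    · have := (abs_le.1 (habs j)).1
      show -M j ≤ zp v τ j
      exact_mod_cast this
    · have := (abs_le.1 (habs j)).2
      exact_mod_cast this
  have hh : ∀ τ : GG v, ht v τ ∈ Set.Iic (d + 1) := by
    intro τ
    have : (ht v τ : ℝ) ≤ ((d + 1 : ℕ) : ℝ) := by
      rw [ht_spec]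
      calc ∑ i, frv v τ i ≤ ∑ i : Fin (d + 1), (1 : ℝ) := Finset.sum_le_sum fun i _ => (fr_lt_one _).le
        _ = _ := by simp
    exact_mod_cast this
  have : Finite (Set.Icc (-M) M ×ˢ Set.Iic (d + 1) : Set ((Fin d → ℤ) × ℕ)) :=
    ((Set.finite_Icc _ _).prod (Set.finite_Iic _)).to_subtype
  apply Finite.of_injective (fun τ : GG v =>
    (⟨(zp v τ, ht v τ), hb τ, hh τ⟩ : (Set.Icc (-M) M ×ˢ Set.Iic (d + 1) : Set ((Fin d → ℤ) × ℕ))))
  intro τ τ' h
  have h1 : zp v τ = zp v τ' := congrArg (fun x => x.1.1) h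
  have h2 : ht v τ = ht v τ' := congrArg (fun x => x.1.2) h
  have h3 : frv v τ = frv v τ' := by
    apply coeff_unique v hv
    · intro j; rw [zp_spec, zp_spec, h1]
    · rw [← ht_spec, ← ht_spec, h2]
  apply Subtype.ext
  rw [← frv_red v τ, ← frv_red v τ', h3]

/-- points of the simplex -/
lemma mem_hull (p : Fin (d + 1) → Fin d → ℝ) (x : Fin d → ℝ) :
    x ∈ convexHull ℝ (Set.range p) ↔
      ∃ w : Fin (d + 1) → ℝ, (∀ i, 0 ≤ w i) ∧ ∑ i, w i = 1 ∧ ∀ j, ∑ i, w i * p i j = x j := by
  constructor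
  · intro hx
    have hconv : Convex ℝ {x : Fin d → ℝ | ∃ w : Fin (d + 1) → ℝ, (∀ i, 0 ≤ w i) ∧ ∑ i, w i = 1 ∧
        ∀ j, ∑ i, w i * p i j = x j} := by
      rintro x ⟨w, h1, h2, h3⟩ y ⟨w', h1', h2', h3'⟩ a b ha hb hab
      refine ⟨fun i => a * w i + b * w' i, fun i => ?_, ?_, fun j => ?_⟩
      · exact add_nonneg (mul_nonneg ha (h1 i)) (mul_nonneg hb (h1' i))
      · rw [Finset.sum_add_distrib, ← Finset.mul_sum, ← Finset.mul_sum, h2, h2', mul_one, mul_one, hab]
      · simp only [add_mul, Finset.sum_add_distrib, mul_assoc, ← Finset.mul_sum, h3, h3']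
        rfl
    refine convexHull_min ?_ hconv hx
    rintro _ ⟨i, rfl⟩
    refine ⟨Pi.single i 1, fun k => ?_, ?_, fun j => ?_⟩
    · by_cases h : k = i
      · subst h; simp
      · simp [h]
    · simp
    · rw [Finset.sum_eq_single i]
      · simp
      · intro k _ hk; simp [hk]
      · intro h; exact absurd (mem_univ i) h
  · rintro ⟨w, h1, h2, h3⟩
    have := (convex_convexHull ℝ (Set.range p)).sum_mem (t := univ) (w := w) (z := p)
      (fun i _ => h1 i) h2 (fun i _ => subset_convexHull ℝ _ ⟨i, rfl⟩)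
    convert this using 1
    funext j
    rw [Finset.sum_apply, ← h3 j]
    rfl

/-- number of solutions -/
def cnt (d t w : ℕ) : ℕ := if w ≤ t then (t - w + d).choose d else 0

lemma card_pi (d n : ℕ) : (piAntidiag (univ : Finset (Fin (d + 1))) n).card = (n + d).choose d := by
  have h1 := card_finsuppAntidiag_nat_eq_choose (s := (univ : Finset (Fin (d + 1)))) n
  have h2 : (finsuppAntidiag (univ : Finset (Fin (d + 1))) n).card =
      (piAntidiag (univ : Finset (Fin (d + 1))) n).card := by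
    unfold finsuppAntidiag
    rw [card_map, card_attach]
  rw [← h2, h1]
  have e : (univ : Finset (Fin (d + 1))).card + n - 1 = n + d := by simp; omega
  rw [e, Nat.choose_symm_add]

include hv in
lemma ehr_eq [Fintype (GG v)] (m : ℕ) : ehr (convexHull ℝ (Set.range (vR v))) m =
    ∑ τ : GG v, cnt d m (ht v τ) := by
  classical
  let K : Finset (Σ _ : GG v, (Fin (d + 1) → ℕ)) :=
    (univ : Finset (GG v)).sigma (fun τ => if ht v τ ≤ m then piAntidiag univ (m - ht v τ) else ∅)
  let Φ : (Σ _ : GG v, (Fin (d + 1) → ℕ)) → (Fin d → ℤ) := fun p j =>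
    zp v p.1 j + ∑ i, (p.2 i : ℤ) * v i j
  have hmem : ∀ p, p ∈ K ↔ ht v p.1 + ∑ o, p.2 o = m := by
    intro p
    rw [Finset.mem_sigma]
    constructor
    · rintro ⟨-, h⟩
      split_ifs at h with h1
      · rw [mem_piAntidiag] at h
        have h2 := h.1
        change ∑ o, p.2 o = _ at h2
        omega
      · simp at h
    · intro h
      refine ⟨mem_univ _, ?_⟩
      have h3 : ht v p.1 ≤ m := by omega
      rw [if_pos h3, mem_piAntidiag]
      refine ⟨?_, fun i _ => mem_univ i⟩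
      change ∑ o, p.2 o = _
      omega
  have hcast : ∀ p j, ((Φ p j : ℤ) : ℝ) = ∑ i, (frv v p.1 i + p.2 i) * vR v i j := by
    intro p j
    simp only [Φ]
    push_cast
    rw [← zp_spec]
    simp only [add_mul, Finset.sum_add_distrib]
    rfl
  have hsum : ∀ p ∈ K, ∑ i, (frv v p.1 i + p.2 i) = m := by
    intro p hp
    rw [hmem] at hp
    rw [Finset.sum_add_distrib, ← ht_spec]
    exact_mod_cast hp
  have hset : {x : Fin d → ℤ | (fun i => (x i : ℝ)) ∈ (fun y => (m : ℝ) • y) ''
      convexHull ℝ (Set.range (vR v))} = Φ '' (K : Set (Σ _ : GG v, (Fin (d + 1) → ℕ))) := by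
    ext x
    rw [Set.mem_ofPred_eq]
    constructor
    · rintro ⟨y, hy, hyx⟩
      rw [mem_hull] at hy
      obtain ⟨w, hw1, hw2, hw3⟩ := hy
      have hx : ∀ j, (x j : ℝ) = m * y j := fun j => (congrFun hyx j).symm
      let l : Fin (d + 1) → ℝ := fun i => m * w i
      have hl0 : ∀ i, 0 ≤ l i := fun i => mul_nonneg (Nat.cast_nonneg m) (hw1 i)
      have hlx : ∀ j, ∑ i, l i * vR v i j = x j := by
        intro j
        rw [hx, ← hw3 j, Finset.mul_sum]
        apply Finset.sum_congr rfl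
        intro i _
        simp only [l]; ring
      have hlm : ∑ i, l i = (m : ℤ) := by
        simp only [l]
        rw [← Finset.mul_sum, hw2]; simp
      have hl : l ∈ Lam v := ⟨⟨x, hlx⟩, m, hlm⟩
      let τ : GG v := ⟨red l, l, hl, rfl⟩
      let n : Fin (d + 1) → ℕ := fun i => ⌊l i⌋.toNat
      have hn : ∀ i, frv v τ i + n i = l i := by
        intro i
        have e1 : frv v τ i = Int.fract (l i) := fr_mk (l i)
        have e2 : (n i : ℝ) = (⌊l i⌋ : ℝ) := by
          have : ((n i : ℤ) : ℝ) = (⌊l i⌋ : ℝ) := by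
            simp only [n]
            rw [Int.toNat_of_nonneg (Int.floor_nonneg.2 (hl0 i))]
          rw [← this]; push_cast; rfl
        rw [e1, e2]
        exact Int.fract_add_floor (l i)
      refine ⟨⟨τ, n⟩, ?_, ?_⟩
      · rw [Finset.mem_coe, hmem]
        have h1 : ((ht v τ + ∑ i, n i : ℕ) : ℝ) = ((m : ℕ) : ℝ) := by
          push_cast
          rw [ht_spec, ← Finset.sum_add_distrib]
          simp_rw [hn]
          rw [hlm]; push_cast; rfl
        exact_mod_cast h1
      · funext j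
        have h1 := hcast ⟨τ, n⟩ j
        simp only at h1
        simp_rw [hn] at h1
        rw [hlx] at h1
        exact_mod_cast h1
    · rintro ⟨p, hp, rfl⟩
      rw [Finset.mem_coe] at hp
      have h1 := hsum p hp
      rcases Nat.eq_zero_or_pos m with hm | hm
      · subst hm
        have hzero : ∀ i, frv v p.1 i + (p.2 i : ℝ) = 0 := by
          have h2 : ∀ i ∈ (univ : Finset (Fin (d + 1))), 0 ≤ frv v p.1 i + (p.2 i : ℝ) := fun i _ =>
            add_nonneg (fr_nonneg _) (Nat.cast_nonneg _)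
          rw [Nat.cast_zero, Finset.sum_eq_zero_iff_of_nonneg h2] at h1
          exact fun i => h1 i (mem_univ i)
        refine ⟨vR v 0, subset_convexHull ℝ _ ⟨0, rfl⟩, ?_⟩
        funext j
        show ((0 : ℕ) : ℝ) * vR v 0 j = ((Φ p j : ℤ) : ℝ)
        rw [hcast]
        simp_rw [hzero]
        simp
      · have hm' : (0 : ℝ) < m := by exact_mod_cast hm
        refine ⟨fun j => ((Φ p j : ℤ) : ℝ) / m, ?_, ?_⟩
        · rw [mem_hull]
          refine ⟨fun i => (frv v p.1 i + p.2 i) / m, fun i => ?_, ?_, fun j => ?_⟩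
          · exact div_nonneg (add_nonneg (fr_nonneg _) (Nat.cast_nonneg _)) hm'.le
          · rw [← Finset.sum_div, h1, div_self hm'.ne']
          · rw [hcast, Finset.sum_div]
            apply Finset.sum_congr rfl
            intro i _
            ring
        · funext j
          show (m : ℝ) * (((Φ p j : ℤ) : ℝ) / m) = _
          field_simp
  have hinj : Set.InjOn Φ (K : Set (Σ _ : GG v, (Fin (d + 1) → ℕ))) := by
    intro p hp p' hp' h
    rw [Finset.mem_coe] at hp hp'
    have h1 : (fun i => frv v p.1 i + (p.2 i : ℝ)) = fun i => frv v p'.1 i + (p'.2 i : ℝ) := by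
      apply coeff_unique v hv
      · intro j
        rw [← hcast, ← hcast, h]
      · rw [hsum p hp, hsum p' hp']
    have h2 : ∀ i, frv v p.1 i = frv v p'.1 i ∧ p.2 i = p'.2 i := by
      intro i
      have h3 := congrFun h1 i
      have a1 := fr_nonneg (p.1.1 i)
      have a2 := fr_lt_one (p.1.1 i)
      have b1 := fr_nonneg (p'.1.1 i)
      have b2 := fr_lt_one (p'.1.1 i)
      have c1 : frv v p.1 i = fr (p.1.1 i) := rfl
      have c2 : frv v p'.1 i = fr (p'.1.1 i) := rfl
      have h4 : p.2 i = p'.2 i := by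
        rcases Nat.lt_trichotomy (p.2 i) (p'.2 i) with h5 | h5 | h5
        · have h6 : (p.2 i : ℝ) + 1 ≤ p'.2 i := by exact_mod_cast h5
          linarith
        · exact h5
        · have h6 : (p'.2 i : ℝ) + 1 ≤ p.2 i := by exact_mod_cast h5
          linarith
      refine ⟨?_, h4⟩
      rw [h4] at h3
      linarith
    obtain ⟨a, f⟩ := p
    obtain ⟨a', f'⟩ := p'
    have e1 : a = a' := by
      apply Subtype.ext
      funext i
      exact fr_inj (h2 i).1
    subst e1
    have e2 : f = f' := funext fun i => (h2 i).2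
    subst e2
    rfl
  unfold ehr
  rw [hset, Set.InjOn.ncard_image hinj, Set.ncard_coe_finset, Finset.card_sigma]
  apply sum_congr rfl
  intro τ _
  unfold cnt
  split_ifs with h
  · rw [card_pi]
  · simp

open PowerSeries in
include hv in
/-- the h*-polynomial of a lattice simplex -/
lemma hstar_eq [Fintype (GG v)] :
    (PowerSeries.mk fun m => (ehr (convexHull ℝ (Set.range (vR v))) m : ℤ)) * (1 - X) ^ (d + 1) =
      ∑ τ : GG v, X ^ ht v τ := by
  have h1 : (PowerSeries.mk fun m => (ehr (convexHull ℝ (Set.range (vR v))) m : ℤ)) =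
      ∑ τ : GG v, X ^ ht v τ * PowerSeries.mk fun k => ((d + k).choose d : ℤ) := by
    ext m
    rw [map_sum]
    simp only [coeff_mk]
    rw [ehr_eq v hv, Nat.cast_sum]
    apply sum_congr rfl
    intro τ _
    rw [coeff_X_pow_mul']
    simp only [coeff_mk, cnt]
    split_ifs with h
    · congr 2
      omega
    · simp
  have h2 := mk_add_choose_mul_one_sub_pow_eq_one ℤ d
  rw [h1, sum_mul]
  apply sum_congr rfl
  intro τ _
  rw [mul_assoc, h2, mul_one]

/-- heights of opposite elements -/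
lemma ht_add_neg (τ : GG v) [DecidableEq (AddCircle (1 : ℝ))] :
    ht v τ + ht v (-τ) = (univ.filter (fun i => τ.1 i ≠ 0)).card := by
  have h1 : ((ht v τ + ht v (-τ) : ℕ) : ℝ) = ((univ.filter (fun i => τ.1 i ≠ 0)).card : ℝ) := by
    push_cast
    rw [ht_spec, ht_spec, ← Finset.sum_add_distrib, Finset.card_filter]
    push_cast
    apply Finset.sum_congr rfl
    intro i _
    show fr (τ.1 i) + fr (-(τ.1 i)) = _
    split_ifs with h
    · rw [fr_neg h]; ring
    · push Not at h
      rw [h, neg_zero, fr_zero]; ring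
  exact_mod_cast h1

lemma ht_zero : ht v 0 = 0 := by
  have h1 : (ht v 0 : ℝ) = 0 := by
    rw [ht_spec]
    apply Finset.sum_eq_zero
    intro i _
    exact fr_zero
  exact_mod_cast h1

end Pool.Agent.Q141.Vol
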